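import Pool.Agent.Y785.LR.Perm

set_option autoImplicit false

namespace Pool.Agent.Results.MP_3d42d9_lc.LREquivalent

open Pool.Agent.Helper227
open Pool.Agent.Y785.LR

/-- There are noncomputable sets `T` that are low for Martin-Löf randomness, and for each of them
there are random sets `A` and `B` with `A ⊕ T ≡_T B ⊕ T`, in particular `A ≡_LR B`, and a set `C`
such that `B` is Martin-Löf random relative to `C` and `A` is not. Moreover some function `e ≤_T C`
has the property that for infinitely many `k` the first `k` bits of the column `e k` of `A` are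
all zero (so `A` is not even Schnorr random relative to `C`). -/
theorem result :
    (∃ T : ℕ → Bool, ¬ Computable T ∧ ∀ X, MLR (fun _ => false) X → MLR T X) ∧
    ∀ T : ℕ → Bool, ¬ Computable T → (∀ X, MLR (fun _ => false) X → MLR T X) →
      ∃ A B C : ℕ → Bool, MLR (fun _ => false) A ∧ MLR (fun _ => false) B ∧
        TLe A (join T B) ∧ TLe B (join T A) ∧ LRle A B ∧ LRle B A ∧ MLR C B ∧ ¬ MLR C A ∧
        ∃ e : ℕ → ℕ, TuringReducible (fun k => Part.some (e k)) (chi C) ∧
          ∀ n, ∃ k, n < k ∧ ∀ l < k, A (Nat.pair (e k) l) = false :=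
  ⟨exists_lowForRandom, fun _ hT hlow => main hT hlow⟩

end Pool.Agent.Results.MP_3d42d9_lc.LREquivalent
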